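import Pool.Agent.helper9.TH.Spec

namespace Pool.Agent.helper35.TH

open Pool.Agent.helper9.TH

universe u

theorem S3 (hS1 : S1_stmt.{u}) (hJa : JBa_stmt.{u}) (hJb : JBb_stmt.{u})
    (hPa : PBa_stmt.{u}) : S3_stmt.{u} := by
  intro p G _ _ P U _ hp hI hH hUp hUP hU hM
  obtain ⟨hJle, hOle, -, -, hJn, hOn⟩ := hJa
  obtain ⟨hJb1, hJb2, -⟩ := hJb
  obtain ⟨-, hPa2, -⟩ := hPa
  obtain ⟨hSyl, hPN1, hPN2⟩ := hH
  by_cases hPU : P ≤ U
  · have hPU' : P = U := le_antisymm hPU hUP
    subst hPU'
    refine ⟨⊤, inferInstance, ?_, 0, by simp⟩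
    rw [Subgroup.card_top]
    have : Nat.card (G ⧸ P) = P.index := rfl
    rw [this]
    exact ((Nat.Prime.coprime_iff_not_dvd hp).2 hSyl.2).symm
  · set π := QuotientGroup.mk' U with hπ
    have hsurj : Function.Surjective π := QuotientGroup.mk'_surjective U
    have hker : π.ker = U := QuotientGroup.ker_mk' U
    set P' := P.map π with hP'
    have hP'p : IsPGroup p P' := hSyl.1.map π
    have hP'ne : P' ≠ ⊥ := by
      intro h
      apply hPU
      have := (Subgroup.map_eq_bot_iff P).1 h
      rwa [hker] at this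
    have hP'idx : ¬ p ∣ P'.index := by
      intro h
      exact hSyl.2 (h.trans (Subgroup.index_map_dvd P hsurj))
    have key : ∀ X' : Subgroup (G ⧸ U), X' ≠ ⊥ → X' ≤ P' →
        Subgroup.normalizer (P' : Set (G ⧸ U)) ≤ Subgroup.normalizer (X' : Set (G ⧸ U)) →
        PN p (Subgroup.normalizer (X' : Set (G ⧸ U))) := by
      intro X' hne hle hnorm
      set X := X'.comap π with hX
      have hcomap : (Subgroup.normalizer (X' : Set (G ⧸ U))).comap π =
          Subgroup.normalizer (X : Set G) :=
        Subgroup.comap_normalizer_eq_of_surjective X' hsurj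
      have hXp : IsPGroup p X := by
        refine IsPGroup.comap_of_ker_isPGroup (hP'p.to_le hle) π ?_
        rw [hker]; exact hUp
      have hPX : P ≤ Subgroup.normalizer (X : Set G) := by
        rw [← hcomap]
        intro g hg
        rw [Subgroup.mem_comap]
        exact hnorm (Subgroup.le_normalizer (Subgroup.mem_map_of_mem π hg))
      have hne_top : Subgroup.normalizer (X : Set G) ≠ ⊤ := by
        intro h
        have hXn : X.Normal := Subgroup.normalizer_eq_top_iff.1 h
        have hXU : X ≤ U := hM X hXn hXp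
        apply hne
        rw [eq_bot_iff]
        intro y hy
        obtain ⟨g, rfl⟩ := hsurj y
        have hgX : g ∈ X := hy
        have : g ∈ π.ker := by rw [hker]; exact hXU hgX
        exact this
      have hcard : Nat.card (Subgroup.normalizer (X : Set G)) < Nat.card G := by
        refine lt_of_le_of_ne (Subgroup.card_le_card_group _) ?_
        intro h
        exact hne_top (Subgroup.eq_top_of_card_eq _ h)
      have hHyp : Hyp p (Subgroup.normalizer (X : Set G))
          (P.subgroupOf (Subgroup.normalizer (X : Set G))) :=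
        hS1.1 p G P _ hp ⟨hSyl, hPN1, hPN2⟩ hPX
      have hPN : PN p (Subgroup.normalizer (X : Set G)) := hI _ _ hcard hHyp
      let f : Subgroup.normalizer (X : Set G) →* Subgroup.normalizer (X' : Set (G ⧸ U)) :=
        (π.comp (Subgroup.subtype _)).codRestrict _ (by
          intro x
          have hx : (x : G) ∈ (Subgroup.normalizer (X' : Set (G ⧸ U))).comap π := by
            rw [hcomap]; exact x.2
          exact hx)
      have hf : Function.Surjective f := by
        rintro ⟨y, hy⟩
        obtain ⟨g, rfl⟩ := hsurj y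
        have hg : g ∈ Subgroup.normalizer (X : Set G) := by
          rw [← hcomap]; exact hy
        exact ⟨⟨g, hg⟩, rfl⟩
      exact hPa2 p _ _ hp f hf hPN
    have hcardQ : Nat.card (G ⧸ U) < Nat.card G := by
      have h1 := Subgroup.card_eq_card_quotient_mul_card_subgroup U
      have h2 : 1 < Nat.card U := by
        rw [Subgroup.one_lt_card_iff_ne_bot]; exact hU
      have h3 : 0 < Nat.card (G ⧸ U) := Nat.card_pos
      rw [h1]
      nlinarith
    refine hI (G ⧸ U) P' hcardQ ⟨⟨hP'p, hP'idx⟩, ?_, ?_⟩
    · exact key _ (hJb1 p _ P' hp hP'p hP'ne) (hJle p _ P') (hJn p _ P')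
    · exact key _ (hJb2 p _ P' hp hP'p hP'ne) (hOle p _ P') (hOn p _ P')

end Pool.Agent.helper35.TH
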